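import Pool.Agent.TH127.MO.Defs
import Mathlib.NumberTheory.EulerProduct.DirichletLSeries
import Mathlib.Analysis.PSeries
import Mathlib.Analysis.SpecialFunctions.Pow.Real
import Mathlib.Analysis.SpecificLimits.Normed

/-!
# Multiplicative functions of sum zero: the Dirichlet series near zero
-/

namespace Pool.Agent.TH127.MO

open Filter Topology Finset

/-- Partial sums over the integers. -/
noncomputable def s (f : ℕ → ℂ) (N : ℕ) : ℂ := ∑ n ∈ Finset.Icc 1 N, f n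

lemma s_zero (f : ℕ → ℂ) : s f 0 = 0 := by simp [s]

lemma s_succ (f : ℕ → ℂ) (N : ℕ) : s f (N + 1) = s f N + f (N + 1) := by
  unfold s
  rw [Finset.sum_Icc_succ_top (by omega)]

lemma norm_f_le {f : ℕ → ℂ} {K : ℝ} (hK : ∀ N : ℕ, 1 ≤ N → ‖s f N‖ ≤ K / N) (n : ℕ) (hn : 1 ≤ n) :
    ‖f n‖ ≤ 3 * K / n := by
  have hK0 : 0 ≤ K := by
    have := (norm_nonneg _).trans (hK 1 le_rfl)
    simpa using this
  obtain ⟨m, rfl⟩ : ∃ m, n = m + 1 := ⟨n - 1, by omega⟩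
  have h1 : f (m + 1) = s f (m + 1) - s f m := by rw [s_succ]; ring
  rw [h1]
  have hpos : (0 : ℝ) < (m + 1 : ℕ) := by positivity
  have h3 := hK (m + 1) (by omega)
  rcases Nat.eq_zero_or_pos m with rfl | hm
  · rw [s_zero, sub_zero]
    refine h3.trans ?_
    gcongr
    linarith
  · have h4 := hK m hm
    have hm' : (1 : ℝ) ≤ m := by exact_mod_cast hm
    have h5 : K / m ≤ 2 * K / (m + 1 : ℕ) := by
      rw [div_le_div_iff₀ (by linarith) hpos]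
      push_cast
      nlinarith
    calc ‖s f (m + 1) - s f m‖ ≤ ‖s f (m + 1)‖ + ‖s f m‖ := norm_sub_le _ _
      _ ≤ K / (m + 1 : ℕ) + 2 * K / (m + 1 : ℕ) := by linarith
      _ = 3 * K / (m + 1 : ℕ) := by ring

/-- The terms of the Dirichlet series at a real point. -/
noncomputable def g (f : ℕ → ℂ) (σ : ℝ) (n : ℕ) : ℂ := f n * (((n : ℝ) ^ (-σ) : ℝ) : ℂ)

lemma g_zero (f : ℕ → ℂ) {σ : ℝ} (hσ : 0 < σ) : g f σ 0 = 0 := by
  unfold g
  rw [Nat.cast_zero, Real.zero_rpow (by linarith)]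
  simp

lemma g_one {f : ℕ → ℂ} (h1 : f 1 = 1) (σ : ℝ) : g f σ 1 = 1 := by
  simp [g, h1]

lemma g_mul {f : ℕ → ℂ} (hf : IsMO f) {σ : ℝ} {m n : ℕ} (h : Nat.Coprime m n) :
    g f σ (m * n) = g f σ m * g f σ n := by
  rcases Nat.eq_zero_or_pos m with rfl | hm
  · rw [Nat.coprime_zero_left] at h
    subst h
    rw [g_one hf.one, mul_one, mul_one]
  rcases Nat.eq_zero_or_pos n with rfl | hn
  · rw [Nat.coprime_zero_right] at h
    subst h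
    rw [g_one hf.one, one_mul, one_mul]
  unfold g
  rw [hf.mul m n hm hn h, Nat.cast_mul, Real.mul_rpow (Nat.cast_nonneg _) (Nat.cast_nonneg _)]
  push_cast
  ring

lemma rpow_neg_le_one {n : ℕ} (hn : 1 ≤ n) {σ : ℝ} (hσ : 0 ≤ σ) : ((n : ℝ) ^ (-σ) : ℝ) ≤ 1 :=
  Real.rpow_le_one_of_one_le_of_nonpos (by exact_mod_cast hn) (by linarith)

lemma rpow_neg_nonneg (n : ℕ) (σ : ℝ) : 0 ≤ ((n : ℝ) ^ (-σ) : ℝ) := by positivity

lemma norm_g (f : ℕ → ℂ) (σ : ℝ) (n : ℕ) : ‖g f σ n‖ = ‖f n‖ * (n : ℝ) ^ (-σ) := by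
  unfold g
  rw [norm_mul, Complex.norm_real, Real.norm_of_nonneg (rpow_neg_nonneg n σ)]

lemma norm_g_le {f : ℕ → ℂ} {σ : ℝ} (hσ : 0 ≤ σ) {n : ℕ} (hn : 1 ≤ n) : ‖g f σ n‖ ≤ ‖f n‖ := by
  rw [norm_g]
  exact mul_le_of_le_one_right (norm_nonneg _) (rpow_neg_le_one hn hσ)

lemma summable_g {f : ℕ → ℂ} {B : ℝ} (hB : ∀ n : ℕ, 1 ≤ n → ‖f n‖ ≤ B / n) {σ : ℝ} (hσ : 0 < σ) :
    Summable fun n => ‖g f σ n‖ := by
  have h1 : Summable fun n : ℕ => B * (n : ℝ) ^ (-1 - σ) :=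
    (Real.summable_nat_rpow.2 (by linarith)).mul_left B
  refine Summable.of_nonneg_of_le (fun _ => norm_nonneg _) (fun n => ?_) h1
  rcases Nat.eq_zero_or_pos n with rfl | hn
  · rw [g_zero f hσ, norm_zero, Nat.cast_zero, Real.zero_rpow (by linarith), mul_zero]
  · have hn' : (0 : ℝ) < n := by exact_mod_cast hn
    rw [norm_g]
    calc ‖f n‖ * (n : ℝ) ^ (-σ) ≤ B / n * (n : ℝ) ^ (-σ) :=
          mul_le_mul_of_nonneg_right (hB n hn) (rpow_neg_nonneg n σ)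
      _ = B * (n : ℝ) ^ (-1 - σ) := by
          have : (-1 - σ : ℝ) = -1 + -σ := by ring
          rw [this, Real.rpow_add hn', Real.rpow_neg_one]
          ring

lemma rpow_diff_nonneg {n : ℕ} (hn : 1 ≤ n) {σ : ℝ} (hσ : 0 ≤ σ) :
    0 ≤ (n : ℝ) ^ (-σ) - ((n + 1 : ℕ) : ℝ) ^ (-σ) := by
  rw [sub_nonneg]
  exact Real.rpow_le_rpow_of_nonpos (by exact_mod_cast hn) (by push_cast; linarith) (by linarith)

lemma rpow_diff_le {n : ℕ} (hn : 1 ≤ n) {σ : ℝ} (hσ : 0 ≤ σ) :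
    (n : ℝ) ^ (-σ) - ((n + 1 : ℕ) : ℝ) ^ (-σ) ≤ σ / n := by
  have hn' : (0 : ℝ) < n := by exact_mod_cast hn
  have h1 : ((n + 1 : ℕ) : ℝ) = n * (1 + 1 / n) := by
    push_cast
    field_simp
  have hpos : (0 : ℝ) < 1 + 1 / n := by positivity
  have h2 : 1 - σ / n ≤ (1 + 1 / (n : ℝ)) ^ (-σ) := by
    rw [Real.rpow_def_of_pos hpos]
    have h3 : Real.log (1 + 1 / (n : ℝ)) ≤ 1 / n := by
      have := Real.log_le_sub_one_of_pos hpos
      linarith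
    have h4 := Real.add_one_le_exp (Real.log (1 + 1 / (n : ℝ)) * -σ)
    have h5 : Real.log (1 + 1 / (n : ℝ)) * σ ≤ σ / n := by
      calc Real.log (1 + 1 / (n : ℝ)) * σ ≤ 1 / n * σ := mul_le_mul_of_nonneg_right h3 hσ
        _ = σ / n := by ring
    linarith
  rw [h1, Real.mul_rpow hn'.le hpos.le]
  have h6 := rpow_neg_le_one hn hσ
  have h7 := rpow_neg_nonneg n σ
  have h8 : (0 : ℝ) ≤ σ / n := by positivity
  nlinarith

/-- Summation by parts. -/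
lemma sum_g (f : ℕ → ℂ) (σ : ℝ) (N : ℕ) : ∑ n ∈ Icc 1 N, g f σ n =
    ∑ n ∈ Icc 1 N, s f n * (((n : ℝ) ^ (-σ) - ((n + 1 : ℕ) : ℝ) ^ (-σ) : ℝ) : ℂ) +
      s f N * ((((N + 1 : ℕ) : ℝ) ^ (-σ) : ℝ) : ℂ) := by
  induction N with
  | zero => simp [s_zero]
  | succ N ih =>
    rw [Finset.sum_Icc_succ_top (by omega), Finset.sum_Icc_succ_top (by omega), ih, s_succ, g]
    push_cast
    ring

lemma norm_sum_g_le {f : ℕ → ℂ} {K : ℝ} (hK : ∀ N : ℕ, 1 ≤ N → ‖s f N‖ ≤ K / N) {σ : ℝ}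
    (hσ : 0 ≤ σ) (N : ℕ) (hN : 1 ≤ N) : ‖∑ n ∈ Icc 1 N, g f σ n‖ ≤
      σ * (K * ∑' n : ℕ, 1 / (n : ℝ) ^ 2) + K / N := by
  have hK0 : 0 ≤ K := by
    have := (norm_nonneg _).trans (hK 1 le_rfl)
    simpa using this
  rw [sum_g]
  refine (norm_add_le _ _).trans (add_le_add ?_ ?_)
  · have hs : Summable fun n : ℕ => 1 / (n : ℝ) ^ 2 := Real.summable_one_div_nat_pow.2 (by norm_num)
    calc ‖∑ n ∈ Icc 1 N, s f n * (((n : ℝ) ^ (-σ) - ((n + 1 : ℕ) : ℝ) ^ (-σ) : ℝ) : ℂ)‖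
        ≤ ∑ n ∈ Icc 1 N, σ * (K * (1 / (n : ℝ) ^ 2)) := by
          refine norm_sum_le_of_le _ fun n hn => ?_
          rw [Finset.mem_Icc] at hn
          have hn' : (0 : ℝ) < n := by exact_mod_cast hn.1
          rw [norm_mul, Complex.norm_real, Real.norm_of_nonneg (rpow_diff_nonneg hn.1 hσ)]
          calc ‖s f n‖ * ((n : ℝ) ^ (-σ) - ((n + 1 : ℕ) : ℝ) ^ (-σ)) ≤ K / n * (σ / n) :=
                mul_le_mul (hK n hn.1) (rpow_diff_le hn.1 hσ) (rpow_diff_nonneg hn.1 hσ)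
                  (by positivity)
            _ = σ * (K * (1 / (n : ℝ) ^ 2)) := by
                field_simp
      _ = σ * (K * ∑ n ∈ Icc 1 N, 1 / (n : ℝ) ^ 2) := by
          rw [← Finset.mul_sum, ← Finset.mul_sum]
      _ ≤ σ * (K * ∑' n : ℕ, 1 / (n : ℝ) ^ 2) := by
          gcongr
          exact hs.sum_le_tsum _ (fun n _ => by positivity)
  · rw [norm_mul, Complex.norm_real, Real.norm_of_nonneg (rpow_neg_nonneg _ _)]
    calc ‖s f N‖ * ((N + 1 : ℕ) : ℝ) ^ (-σ) ≤ ‖s f N‖ * 1 :=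
          mul_le_mul_of_nonneg_left (rpow_neg_le_one (by omega) hσ) (norm_nonneg _)
      _ ≤ K / N := by rw [mul_one]; exact hK N hN

/-- The Dirichlet series is `O(σ)`. -/
theorem norm_tsum_g_le {f : ℕ → ℂ} {K : ℝ} (hK : ∀ N : ℕ, 1 ≤ N → ‖s f N‖ ≤ K / N) {σ : ℝ}
    (hσ : 0 < σ) : ‖∑' n, g f σ n‖ ≤ σ * (K * ∑' n : ℕ, 1 / (n : ℝ) ^ 2) := by
  have hs : Summable fun n => g f σ n := (summable_g (norm_f_le hK) hσ).of_norm
  have h1 : Tendsto (fun N : ℕ => ∑ n ∈ range (N + 1), g f σ n) atTop (𝓝 (∑' n, g f σ n)) :=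
    (tendsto_add_atTop_iff_nat 1).2 hs.hasSum.tendsto_sum_nat
  have h2 : ∀ N, ∑ n ∈ range (N + 1), g f σ n = ∑ n ∈ Icc 1 N, g f σ n := by
    intro N
    rw [Finset.sum_range_succ', g_zero f hσ, add_zero, Finset.range_eq_Ico,
      Finset.sum_Ico_add' (fun n => g f σ n) 0 N 1]
    rfl
  have h3 : Tendsto (fun N : ℕ => σ * (K * ∑' n : ℕ, 1 / (n : ℝ) ^ 2) + K / N) atTop
      (𝓝 (σ * (K * ∑' n : ℕ, 1 / (n : ℝ) ^ 2) + 0)) :=
    tendsto_const_nhds.add (tendsto_const_div_atTop_nhds_zero_nat K)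
  rw [add_zero] at h3
  refine le_of_tendsto_of_tendsto h1.norm h3 ?_
  filter_upwards [eventually_ge_atTop 1] with N hN
  rw [h2]
  exact norm_sum_g_le hK hσ.le N hN

end Pool.Agent.TH127.MO
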