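import Mathlib.Analysis.Complex.Basic
import Mathlib.Data.Nat.Prime.Defs
import Mathlib.Order.Interval.Finset.Nat
import Mathlib.Algebra.Order.Floor.Semiring

/-!
# Multiplicative functions of sum zero: definitions
-/

namespace Pool.Agent.TH127.MO

open Filter Topology

/-- The partial sum `S_f(x) = ∑_{1 ≤ n ≤ x} f(n)`. -/
noncomputable def S (f : ℕ → ℂ) (x : ℝ) : ℂ := ∑ n ∈ Finset.Icc 1 ⌊x⌋₊, f n

/-- `f` is an MO function: it is multiplicative, the series `∑ f(n)` converges to `0`, and for each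
prime `p` the series `∑_k f(p ^ k)` converges to a nonzero value. -/
structure IsMO (f : ℕ → ℂ) : Prop where
  one : f 1 = 1
  mul : ∀ m n : ℕ, 0 < m → 0 < n → Nat.Coprime m n → f (m * n) = f m * f n
  sum_zero : Tendsto (fun N : ℕ => ∑ n ∈ Finset.Icc 1 N, f n) atTop (𝓝 0)
  local_ne_zero : ∀ p : ℕ, p.Prime → ∃ c : ℂ, c ≠ 0 ∧
    Tendsto (fun K : ℕ => ∑ k ∈ Finset.range K, f (p ^ k)) atTop (𝓝 c)

end Pool.Agent.TH127.MO
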