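import Pool.Agent.TH127.MO.Basic
import Mathlib.Analysis.Complex.Exponential
import Mathlib.Analysis.Normed.Group.Tannery

/-!
# Multiplicative functions of sum zero: the local factors
-/

namespace Pool.Agent.TH127.MO

open Filter Topology Finset

lemma exp_le_norm_one_add {z : ℂ} (hz : ‖z‖ ≤ 1 / 2) : Real.exp (z.re - 4 * ‖z‖ ^ 2) ≤ ‖1 + z‖ := by
  have h1 := Complex.norm_exp_sub_one_sub_id_le (x := z) (by linarith)
  have h2 : ‖Complex.exp z‖ ≤ ‖1 + z‖ + ‖Complex.exp z - 1 - z‖ := by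
    have : Complex.exp z = (1 + z) + (Complex.exp z - 1 - z) := by ring
    calc ‖Complex.exp z‖ = ‖(1 + z) + (Complex.exp z - 1 - z)‖ := by rw [← this]
      _ ≤ _ := norm_add_le _ _
  rw [Complex.norm_exp] at h2
  have h3 : Real.exp z.re - ‖z‖ ^ 2 ≤ ‖1 + z‖ := by linarith
  refine le_trans ?_ h3
  have hn := norm_nonneg z
  have hsq : ‖z‖ ^ 2 ≤ 1 / 4 := by nlinarith
  have h4 : Real.exp (z.re - 4 * ‖z‖ ^ 2) = Real.exp z.re * Real.exp (-(4 * ‖z‖ ^ 2)) := by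
    rw [← Real.exp_add]; ring_nf
  rw [h4]
  -- `exp (-4 y) ≤ 1 - 2 y` for `0 ≤ y ≤ 1 / 4`
  set y := ‖z‖ ^ 2 with hy
  have hy0 : 0 ≤ y := by positivity
  have h5 : Real.exp (-(4 * y)) ≤ 1 - 2 * y := by
    have h6 : Real.exp (-(4 * y)) * Real.exp (4 * y) = 1 := by
      rw [← Real.exp_add]; simp
    have h7 : 1 + 4 * y ≤ Real.exp (4 * y) := by
      have := Real.add_one_le_exp (4 * y)
      linarith
    have h8 : 0 < Real.exp (-(4 * y)) := Real.exp_pos _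
    have h9 : Real.exp (-(4 * y)) * (1 + 4 * y) ≤ 1 :=
      (mul_le_mul_of_nonneg_left h7 h8.le).trans h6.le
    have h10 : (1 - 2 * y) * (1 + 4 * y) ≥ 1 := by nlinarith
    nlinarith
  have h6 : 1 / 2 ≤ Real.exp z.re := by
    have h7 := Real.add_one_le_exp z.re
    have h8 := Complex.abs_re_le_norm z
    have h9 := neg_abs_le z.re
    linarith
  have h7 : Real.exp z.re * Real.exp (-(4 * y)) ≤ Real.exp z.re * (1 - 2 * y) :=
    mul_le_mul_of_nonneg_left h5 (Real.exp_pos _).le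
  nlinarith

variable {f : ℕ → ℂ} {B : ℝ}

lemma norm_g_pow_le (hB : ∀ n : ℕ, 1 ≤ n → ‖f n‖ ≤ B / n) {σ : ℝ} (hσ : 0 ≤ σ) {p : ℕ}
    (hp : p.Prime) (e : ℕ) : ‖g f σ (p ^ e)‖ ≤ B * (1 / (p : ℝ)) ^ e := by
  have h1 : 1 ≤ p ^ e := Nat.one_le_pow _ _ hp.pos
  refine (norm_g_le hσ h1).trans ((hB _ h1).trans (le_of_eq ?_))
  push_cast
  rw [one_div, inv_pow]
  rfl

lemma inv_prime_lt_one {p : ℕ} (hp : p.Prime) : 1 / (p : ℝ) < 1 := by
  rw [div_lt_one (by exact_mod_cast hp.pos)]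
  exact_mod_cast hp.one_lt

lemma summable_local (hB : ∀ n : ℕ, 1 ≤ n → ‖f n‖ ≤ B / n) {σ : ℝ} (hσ : 0 ≤ σ) {p : ℕ}
    (hp : p.Prime) : Summable fun e => g f σ (p ^ e) := by
  refine Summable.of_norm_bounded ((summable_geometric_of_lt_one (by positivity)
    (inv_prime_lt_one hp)).mul_left B) (norm_g_pow_le hB hσ hp)

/-- The local factor at a large prime. -/
lemma local_large (h1 : f 1 = 1) (hB : ∀ n : ℕ, 1 ≤ n → ‖f n‖ ≤ B / n) {σ : ℝ} (hσ : 0 ≤ σ)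
    {p : ℕ} (hp : p.Prime) (hpB : 4 * B ≤ p) :
    Real.exp ((f p).re * (p : ℝ) ^ (-σ) - (2 * B + 16 * B ^ 2) / (p : ℝ) ^ 2) ≤
      ‖∑' e, g f σ (p ^ e)‖ := by
  have hB1 : 1 ≤ B := by
    have := hB 1 le_rfl
    rw [h1] at this
    simpa using this
  have hp2 : (2 : ℝ) ≤ p := by exact_mod_cast hp.two_le
  have hp0 : (0 : ℝ) < p := by linarith
  have hs := summable_local hB hσ hp
  have e1 : ∑' e, g f σ (p ^ e) = 1 + (g f σ p + ∑' e, g f σ (p ^ (e + 2))) := by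
    rw [hs.tsum_eq_zero_add, ((summable_nat_add_iff 1).2 hs).tsum_eq_zero_add]
    rw [pow_zero, g_one h1, zero_add, pow_one]
  set r := ∑' e, g f σ (p ^ (e + 2)) with hr
  have hx : 1 / (p : ℝ) ≤ 1 / 2 := by
    rw [div_le_div_iff₀ hp0 (by norm_num)]
    linarith
  have hx0 : 0 < 1 / (p : ℝ) := by positivity
  have hrn : ‖r‖ ≤ 2 * B / (p : ℝ) ^ 2 := by
    have hgeo := (hasSum_geometric_of_lt_one hx0.le (inv_prime_lt_one hp)).mul_left
      (B * (1 / (p : ℝ)) ^ 2)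
    have h2 : ‖r‖ ≤ B * (1 / (p : ℝ)) ^ 2 * (1 - 1 / (p : ℝ))⁻¹ := by
      refine tsum_of_norm_bounded hgeo fun e => ?_
      refine (norm_g_pow_le hB hσ hp (e + 2)).trans (le_of_eq ?_)
      rw [pow_add]
      ring
    refine h2.trans ?_
    have h3 : (1 - 1 / (p : ℝ))⁻¹ ≤ 2 := by
      rw [inv_le_comm₀ (by linarith) (by norm_num)]
      linarith
    calc B * (1 / (p : ℝ)) ^ 2 * (1 - 1 / (p : ℝ))⁻¹ ≤ B * (1 / (p : ℝ)) ^ 2 * 2 :=
          mul_le_mul_of_nonneg_left h3 (by positivity)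
      _ = 2 * B / (p : ℝ) ^ 2 := by field_simp
  have hw : ‖g f σ p‖ ≤ B / p := by
    have := norm_g_pow_le hB hσ hp 1
    rw [pow_one, pow_one] at this
    calc ‖g f σ p‖ ≤ B * (1 / (p : ℝ)) := this
      _ = B / p := by ring
  have hr2 : 2 * B / (p : ℝ) ^ 2 ≤ B / p := by
    rw [div_le_div_iff₀ (by positivity) hp0]
    have : 0 ≤ B * p * (p - 2) := by
      have : (0 : ℝ) ≤ p - 2 := by linarith
      positivity
    nlinarith
  have hz : ‖g f σ p + r‖ ≤ 2 * B / p := by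
    calc ‖g f σ p + r‖ ≤ ‖g f σ p‖ + ‖r‖ := norm_add_le _ _
      _ ≤ B / p + B / p := add_le_add hw (hrn.trans hr2)
      _ = 2 * B / p := by ring
  have hz2 : ‖g f σ p + r‖ ≤ 1 / 2 := by
    refine hz.trans ?_
    rw [div_le_div_iff₀ hp0 (by norm_num)]
    linarith
  rw [e1]
  refine le_trans ?_ (exp_le_norm_one_add hz2)
  apply Real.exp_le_exp.2
  have hre : (g f σ p).re = (f p).re * (p : ℝ) ^ (-σ) := by
    unfold g
    rw [Complex.re_mul_ofReal]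
  rw [Complex.add_re, hre]
  have hr3 : -‖r‖ ≤ r.re := by
    have h8 := Complex.abs_re_le_norm r
    have h9 := neg_abs_le r.re
    linarith
  have hz3 : 4 * ‖g f σ p + r‖ ^ 2 ≤ 16 * B ^ 2 / (p : ℝ) ^ 2 := by
    have h8 := norm_nonneg (g f σ p + r)
    have h9 : ‖g f σ p + r‖ ^ 2 ≤ (2 * B / p) ^ 2 := by
      gcongr
    calc 4 * ‖g f σ p + r‖ ^ 2 ≤ 4 * (2 * B / p) ^ 2 := by linarith
      _ = 16 * B ^ 2 / (p : ℝ) ^ 2 := by
        field_simp
        ring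
  have h10 : (2 * B + 16 * B ^ 2) / (p : ℝ) ^ 2 = 2 * B / (p : ℝ) ^ 2 + 16 * B ^ 2 / (p : ℝ) ^ 2 := by
    rw [add_div]
  rw [h10]
  linarith

/-- The local factors are continuous at `0`. -/
lemma tendsto_local (hf : IsMO f) (hB : ∀ n : ℕ, 1 ≤ n → ‖f n‖ ≤ B / n) {p : ℕ} (hp : p.Prime) :
    ∃ c : ℂ, c ≠ 0 ∧ Tendsto (fun σ : ℝ => ∑' e, g f σ (p ^ e)) (𝓝[>] 0) (𝓝 c) := by
  obtain ⟨c, hc, hc'⟩ := hf.local_ne_zero p hp
  have h0 : ∀ e, g f 0 (p ^ e) = f (p ^ e) := by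
    intro e
    simp [g]
  have hs : Summable fun e => f (p ^ e) := by
    have := summable_local hB le_rfl hp
    simpa only [h0] using this
  have hcs : ∑' e, f (p ^ e) = c := tendsto_nhds_unique hs.hasSum.tendsto_sum_nat hc'
  refine ⟨c, hc, ?_⟩
  rw [← hcs]
  refine tendsto_tsum_of_dominated_convergence (bound := fun e => B * (1 / (p : ℝ)) ^ e)
    ((summable_geometric_of_lt_one (by positivity) (inv_prime_lt_one hp)).mul_left B) ?_ ?_
  · intro e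
    have hpe : (0 : ℝ) < ((p ^ e : ℕ) : ℝ) := by
      exact_mod_cast Nat.pos_of_ne_zero (pow_ne_zero e hp.pos.ne')
    have h1 : Tendsto (fun σ : ℝ => ((((p ^ e : ℕ) : ℝ) ^ (-σ) : ℝ) : ℂ)) (𝓝[>] 0)
        (𝓝 ((1 : ℝ) : ℂ)) := by
      apply (Complex.continuous_ofReal.tendsto _).comp
      have h2 : Continuous fun σ : ℝ => ((p ^ e : ℕ) : ℝ) ^ (-σ) :=
        continuous_const.rpow continuous_neg (fun _ => Or.inl hpe.ne')
      have h3 := (h2.tendsto 0).mono_left (nhdsWithin_le_nhds (s := Set.Ioi 0))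
      simpa using h3
    have h4 := h1.const_mul (f (p ^ e))
    simpa [g] using h4
  · filter_upwards [self_mem_nhdsWithin] with σ hσ e
    exact norm_g_pow_le hB (le_of_lt hσ) hp e

end Pool.Agent.TH127.MO
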