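import Pool.Agent.TH127.MO.Local
import Mathlib.NumberTheory.LSeries.RiemannZeta

/-!
# Multiplicative functions of sum zero: the main inequality
-/

namespace Pool.Agent.TH127.MO

open Filter Topology Finset Nat

variable {f : ℕ → ℂ} {K : ℝ}

lemma one_le_K (hf : IsMO f) (hK : ∀ N : ℕ, 1 ≤ N → ‖s f N‖ ≤ K / N) : 1 ≤ K := by
  have h := hK 1 le_rfl
  have h1 : s f 1 = 1 := by simp [s, hf.one]
  rw [h1] at h
  simpa using h

lemma one_le_zeta2 : 1 ≤ ∑' n : ℕ, 1 / (n : ℝ) ^ 2 := by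
  have hs : Summable fun n : ℕ => 1 / (n : ℝ) ^ 2 := Real.summable_one_div_nat_pow.2 (by norm_num)
  have := hs.sum_le_tsum {1} (fun n _ => by positivity)
  simpa using this

/-- The main inequality: on average `f(p)` is at most `-1 / p`. -/
theorem main_ineq (hf : IsMO f) (hK : ∀ N : ℕ, 1 ≤ N → ‖s f N‖ ≤ K / N) (P : ℕ)
    (hP : 4 * (3 * K) ≤ P) : ∃ D : ℝ, ∀ᶠ σ : ℝ in 𝓝[>] 0, ∀ᶠ n : ℕ in atTop,
      ∑ p ∈ (primesBelow n).filter (P ≤ ·), (f p).re * (p : ℝ) ^ (-σ) ≤ Real.log σ + D := by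
  have hK1 := one_le_K hf hK
  have hB := norm_f_le hK
  set B := 3 * K with hBdef
  have hz := one_le_zeta2
  have hsz : Summable fun n : ℕ => 1 / (n : ℝ) ^ 2 :=
    Real.summable_one_div_nat_pow.2 (by norm_num)
  set Z := ∑' n : ℕ, 1 / (n : ℝ) ^ 2 with hZ
  have hA : 0 < K * Z := by positivity
  have hloc : ∀ p : ℕ, ∃ c : ℂ, c ≠ 0 ∧ (p.Prime →
      Tendsto (fun σ : ℝ => ∑' e, g f σ (p ^ e)) (𝓝[>] 0) (𝓝 c)) := by
    intro p
    by_cases hp : p.Prime
    · obtain ⟨c, hc, h⟩ := tendsto_local hf hB hp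
      exact ⟨c, hc, fun _ => h⟩
    · exact ⟨1, one_ne_zero, fun h => absurd h hp⟩
  choose c hc hc' using hloc
  have hprod : Tendsto (fun σ : ℝ => ‖∏ p ∈ primesBelow P, ∑' e, g f σ (p ^ e)‖) (𝓝[>] 0)
      (𝓝 ‖∏ p ∈ primesBelow P, c p‖) :=
    (tendsto_finsetProd _ fun p hp => hc' p (prime_of_mem_primesBelow hp)).norm
  have hpos : 0 < ‖∏ p ∈ primesBelow P, c p‖ :=
    norm_pos_iff.2 (Finset.prod_ne_zero_iff.2 fun p _ => hc p)
  set δ := ‖∏ p ∈ primesBelow P, c p‖ / 2 with hδ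
  have hδ0 : 0 < δ := by positivity
  have hev := hprod.eventually (lt_mem_nhds (show δ < _ from half_lt_self hpos))
  refine ⟨(2 * B + 16 * B ^ 2) * Z + Real.log (2 * (K * Z) / δ), ?_⟩
  filter_upwards [hev, self_mem_nhdsWithin] with σ hσδ hσ
  have hσ0 : 0 < σ := hσ
  have heuler := (EulerProduct.eulerProduct (f := g f σ) (g_one hf.one σ)
    (fun {m n} h => g_mul hf h) (summable_g hB hσ0) (g_zero f hσ0)).norm
  have hlt : ‖∑' n, g f σ n‖ < 2 * σ * (K * Z) := by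
    have h1 := norm_tsum_g_le hK hσ0
    have h2 : 0 < σ * (K * Z) := by positivity
    linarith
  filter_upwards [heuler.eventually (gt_mem_nhds hlt), eventually_ge_atTop P] with n hn hnP
  have hsplit : ∏ p ∈ primesBelow n, ∑' e, g f σ (p ^ e) =
      (∏ p ∈ primesBelow P, ∑' e, g f σ (p ^ e)) *
        ∏ p ∈ (primesBelow n).filter (P ≤ ·), ∑' e, g f σ (p ^ e) := by
    rw [← Finset.prod_filter_mul_prod_filter_not (primesBelow n) (fun p => p < P)]
    have e1 : (primesBelow n).filter (fun p => p < P) = primesBelow P := by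
      ext p
      simp only [Finset.mem_filter, Nat.mem_primesBelow]
      constructor
      · rintro ⟨⟨h1, h2⟩, h3⟩
        exact ⟨h3, h2⟩
      · rintro ⟨h1, h2⟩
        exact ⟨⟨by omega, h2⟩, h1⟩
    rw [e1]
    congr 1
    apply Finset.prod_congr _ fun _ _ => rfl
    ext p
    simp only [Finset.mem_filter, not_lt]
  rw [hsplit, norm_mul, norm_prod] at hn
  have hge : Real.exp (∑ p ∈ (primesBelow n).filter (P ≤ ·), (f p).re * (p : ℝ) ^ (-σ) -
      (2 * B + 16 * B ^ 2) * Z) ≤ ‖∏ p ∈ (primesBelow n).filter (P ≤ ·), ∑' e, g f σ (p ^ e)‖ := by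
    rw [norm_prod]
    have h1 : Real.exp (∑ p ∈ (primesBelow n).filter (P ≤ ·), ((f p).re * (p : ℝ) ^ (-σ) -
        (2 * B + 16 * B ^ 2) / (p : ℝ) ^ 2)) ≤
        ∏ p ∈ (primesBelow n).filter (P ≤ ·), ‖∑' e, g f σ (p ^ e)‖ := by
      rw [Real.exp_sum]
      refine Finset.prod_le_prod (fun _ _ => (Real.exp_pos _).le) fun p hp => ?_
      rw [Finset.mem_filter] at hp
      refine local_large hf.one hB hσ0.le (prime_of_mem_primesBelow hp.1) ?_
      have : (P : ℝ) ≤ p := by exact_mod_cast hp.2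
      linarith
    refine le_trans (Real.exp_le_exp.2 ?_) h1
    rw [Finset.sum_sub_distrib]
    have h2 : ∑ p ∈ (primesBelow n).filter (P ≤ ·), (2 * B + 16 * B ^ 2) / (p : ℝ) ^ 2 ≤
        (2 * B + 16 * B ^ 2) * Z := by
      have h3 := hsz.sum_le_tsum ((primesBelow n).filter (P ≤ ·)) (fun n _ => by positivity)
      calc ∑ p ∈ (primesBelow n).filter (P ≤ ·), (2 * B + 16 * B ^ 2) / (p : ℝ) ^ 2
          = (2 * B + 16 * B ^ 2) * ∑ p ∈ (primesBelow n).filter (P ≤ ·), 1 / (p : ℝ) ^ 2 := by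
            rw [Finset.mul_sum]
            exact Finset.sum_congr rfl fun p _ => by ring
        _ ≤ _ := mul_le_mul_of_nonneg_left h3 (by positivity)
    linarith
  rw [norm_prod] at hge
  rw [norm_prod] at hσδ
  have h5 : δ * Real.exp (∑ p ∈ (primesBelow n).filter (P ≤ ·), (f p).re * (p : ℝ) ^ (-σ) -
      (2 * B + 16 * B ^ 2) * Z) ≤ 2 * σ * (K * Z) := by
    refine le_trans (mul_le_mul hσδ.le hge (Real.exp_pos _).le (Finset.prod_nonneg fun _ _ =>
      norm_nonneg _)) ?_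
    rw [← norm_prod (primesBelow n |>.filter (P ≤ ·))]
    exact hn.le
  have h6 : Real.exp (∑ p ∈ (primesBelow n).filter (P ≤ ·), (f p).re * (p : ℝ) ^ (-σ) -
      (2 * B + 16 * B ^ 2) * Z) ≤ σ * (2 * (K * Z) / δ) := by
    rw [mul_div_assoc', le_div_iff₀ hδ0]
    linarith
  have h7 : 0 < 2 * (K * Z) / δ := by positivity
  have h8 := (Real.le_log_iff_exp_le (by positivity)).2 h6
  rw [Real.log_mul hσ0.ne' h7.ne'] at h8
  linarith

/-- The sum of the reciprocals of the primes, with an exponent. -/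
theorem prime_sum_le : ∀ᶠ σ : ℝ in 𝓝[>] 0, ∀ n : ℕ,
    ∑ p ∈ primesBelow n, (p : ℝ) ^ (-1 - σ) ≤ Real.log (2 / σ) := by
  have h1 : Tendsto (fun σ : ℝ => (1 : ℂ) + (σ : ℂ)) (𝓝[>] 0) (𝓝[≠] 1) := by
    rw [tendsto_nhdsWithin_iff]
    constructor
    · have h2 : Continuous fun σ : ℝ => (1 : ℂ) + (σ : ℂ) := by fun_prop
      have h3 := (h2.tendsto 0).mono_left (nhdsWithin_le_nhds (s := Set.Ioi 0))
      simpa using h3
    · filter_upwards [self_mem_nhdsWithin] with σ hσ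
      have hσ' : (σ : ℂ) ≠ 0 := by exact_mod_cast (ne_of_gt hσ)
      simpa using hσ'
  have h2 := (riemannZeta_residue_one.comp h1).norm
  have h3 := h2.eventually (gt_mem_nhds (show ‖(1 : ℂ)‖ < 2 by norm_num))
  filter_upwards [h3, self_mem_nhdsWithin] with σ hσ2 hσ n
  have hσ0 : 0 < σ := hσ
  have hζ : ‖riemannZeta (1 + σ)‖ ≤ 2 / σ := by
    rw [Function.comp_apply, norm_mul, add_sub_cancel_left, Complex.norm_real,
      Real.norm_of_nonneg hσ0.le] at hσ2
    rw [le_div_iff₀ hσ0]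
    linarith
  rw [Real.le_log_iff_exp_le (by positivity)]
  refine le_trans ?_ hζ
  have hs : 1 < ((1 : ℂ) + (σ : ℂ)).re := by simpa using hσ0
  refine ge_of_tendsto (riemannZeta_eulerProduct hs).norm ?_
  filter_upwards [eventually_ge_atTop n] with m hm
  have hle : ∑ p ∈ primesBelow n, (p : ℝ) ^ (-1 - σ) ≤ ∑ p ∈ primesBelow m, (p : ℝ) ^ (-1 - σ) := by
    apply Finset.sum_le_sum_of_subset_of_nonneg
    · intro p hp
      rw [mem_primesBelow] at *
      exact ⟨by omega, hp.2⟩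
    · intro p _ _
      positivity
  refine (Real.exp_le_exp.2 hle).trans ?_
  rw [Real.exp_sum, norm_prod]
  refine Finset.prod_le_prod (fun _ _ => (Real.exp_pos _).le) fun p hp => ?_
  have hpp := prime_of_mem_primesBelow hp
  have hp1 : (1 : ℝ) < p := by exact_mod_cast hpp.one_lt
  have e1 : (p : ℂ) ^ (-((1 : ℂ) + (σ : ℂ))) = (((p : ℝ) ^ (-1 - σ) : ℝ) : ℂ) := by
    rw [Complex.ofReal_cpow (by linarith)]
    push_cast
    congr 1
    ring
  rw [e1]
  set x := (p : ℝ) ^ (-1 - σ) with hx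
  have hx0 : 0 < x := by positivity
  have hx1 : x < 1 := Real.rpow_lt_one_of_one_lt_of_neg hp1 (by linarith)
  have e2 : (1 : ℂ) - (x : ℂ) = ((1 - x : ℝ) : ℂ) := by push_cast; ring
  rw [e2, norm_inv, Complex.norm_real, Real.norm_of_nonneg (by linarith)]
  have h4 : 1 - x ≤ Real.exp (-x) := by
    have := Real.add_one_le_exp (-x)
    linarith
  have h5 : Real.exp x = (Real.exp (-x))⁻¹ := by rw [Real.exp_neg, inv_inv]
  rw [h5]
  exact inv_anti₀ (by linarith) h4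

end Pool.Agent.TH127.MO
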