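import Pool.Agent.TH127.MO.Main

/-!
# Multiplicative functions of sum zero: lower bounds for the partial sums
-/

namespace Pool.Agent.TH127.MO

open Filter Topology Finset Nat

variable {f : ℕ → ℂ} {K : ℝ}

lemma S_natCast (f : ℕ → ℂ) (N : ℕ) : S f (N : ℝ) = s f N := by
  unfold S s
  rw [Nat.floor_natCast]

/-- **The partial sums of an MO function are at least `c / x` for every `c < 1 / 2`.** -/
theorem frequently_lt (hf : IsMO f) {c : ℝ} (hc : c < 1 / 2) :
    ∃ᶠ x : ℝ in atTop, c / x < ‖S f x‖ := by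
  by_contra hcon
  rw [not_frequently] at hcon
  obtain ⟨X, hX⟩ := eventually_atTop.1 hcon
  obtain ⟨N0, hN0⟩ := exists_nat_ge X
  have h1 : ∀ N : ℕ, N0 ≤ N → ‖s f N‖ ≤ c / N := by
    intro N hN
    have h2 := hX N (hN0.trans (by exact_mod_cast hN))
    rw [S_natCast, not_lt] at h2
    exact h2
  have hc0 : 0 ≤ c := by
    have h2 := (norm_nonneg _).trans (h1 (N0 + 1) (by omega))
    have h3 : (0 : ℝ) < ((N0 + 1 : ℕ) : ℝ) := by positivity
    by_contra h4
    exact absurd h2 (not_le.2 (div_neg_of_neg_of_pos (not_le.1 h4) h3))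
  set K := c + ∑ n ∈ range N0, (n : ℝ) * ‖s f n‖ with hKdef
  have hK : ∀ N : ℕ, 1 ≤ N → ‖s f N‖ ≤ K / N := by
    intro N hN
    have hN' : (0 : ℝ) < N := by exact_mod_cast hN
    have hsum : 0 ≤ ∑ n ∈ range N0, (n : ℝ) * ‖s f n‖ := Finset.sum_nonneg fun _ _ => by positivity
    rcases lt_or_ge N N0 with h2 | h2
    · rw [le_div_iff₀ hN']
      have h3 := Finset.single_le_sum (f := fun n : ℕ => (n : ℝ) * ‖s f n‖)
        (fun n _ => by positivity) (Finset.mem_range.2 h2)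
      have h4 : (N : ℝ) * ‖s f N‖ ≤ ∑ n ∈ range N0, (n : ℝ) * ‖s f n‖ := h3
      linarith
    · refine (h1 N h2).trans ?_
      gcongr
      linarith
  have hK1 := one_le_K hf hK
  set κ := (2 * c + 1) / 2 with hκ
  have hκ1 : κ < 1 := by rw [hκ]; linarith
  have hκ0 : 0 ≤ κ := by positivity
  obtain ⟨N1, hN1⟩ := exists_nat_ge (2 * c / (1 - 2 * c))
  have hlarge : ∀ n : ℕ, N0 + N1 + 2 ≤ n → ‖f n‖ ≤ κ / n := by
    intro n hn
    obtain ⟨m, rfl⟩ : ∃ m, n = m + 1 := ⟨n - 1, by omega⟩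
    have hm : (0 : ℝ) < m := by exact_mod_cast (by omega : 0 < m)
    have h2 : f (m + 1) = s f (m + 1) - s f m := by rw [s_succ]; ring
    rw [h2]
    refine (norm_sub_le _ _).trans ((add_le_add (h1 (m + 1) (by omega))
      (h1 m (by omega))).trans ?_)
    have h3 : (N1 : ℝ) ≤ m := by exact_mod_cast (by omega : N1 ≤ m)
    have h4 : 2 * c ≤ (1 - 2 * c) * m := by
      have h5 : 0 < 1 - 2 * c := by linarith
      have h6 := (div_le_iff₀ h5).1 (hN1.trans h3)
      linarith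
    have h5 : (0 : ℝ) < ((m + 1 : ℕ) : ℝ) := by positivity
    have h6 : c / ((m + 1 : ℕ) : ℝ) + c / m = (c * m + c * (m + 1)) / (((m + 1 : ℕ) : ℝ) * m) := by
      push_cast
      field_simp
    rw [h6, div_le_div_iff₀ (by positivity) h5]
    push_cast
    have h7 : (c * m + c * (m + 1)) ≤ κ * m := by
      rw [hκ]
      linarith
    nlinarith
  obtain ⟨P0, hP0⟩ := exists_nat_ge (4 * (3 * K))
  obtain ⟨D, hD⟩ := main_ineq hf hK (P0 + N0 + N1 + 2) (by push_cast; linarith [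
    (Nat.cast_nonneg N0 : (0 : ℝ) ≤ N0), (Nat.cast_nonneg N1 : (0 : ℝ) ≤ N1)])
  have hlog : ∀ᶠ σ : ℝ in 𝓝[>] 0, Real.log σ < -((D + κ * Real.log 2 + 1) / (1 - κ)) :=
    Real.tendsto_log_nhdsGT_zero.eventually (eventually_lt_atBot _)
  obtain ⟨σ, hσD, hσp, hσlog, hσ⟩ := (hD.and (prime_sum_le.and (hlog.and
    (self_mem_nhdsWithin (a := (0 : ℝ)) (s := Set.Ioi 0))))).exists
  have hσ0 : 0 < σ := hσ
  obtain ⟨n, hn⟩ := hσD.exists
  have h8 : -κ * ∑ p ∈ (primesBelow n).filter (P0 + N0 + N1 + 2 ≤ ·), (p : ℝ) ^ (-1 - σ) ≤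
      ∑ p ∈ (primesBelow n).filter (P0 + N0 + N1 + 2 ≤ ·), (f p).re * (p : ℝ) ^ (-σ) := by
    rw [Finset.mul_sum]
    refine Finset.sum_le_sum fun p hp => ?_
    rw [Finset.mem_filter] at hp
    have hpp : (0 : ℝ) < p := by exact_mod_cast (prime_of_mem_primesBelow hp.1).pos
    have h9 := hlarge p (by omega)
    have h10 := Complex.abs_re_le_norm (f p)
    have h11 := neg_abs_le (f p).re
    have h12 : (p : ℝ) ^ (-1 - σ) = 1 / p * (p : ℝ) ^ (-σ) := by
      have : (-1 - σ : ℝ) = -1 + -σ := by ring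
      rw [this, Real.rpow_add hpp, Real.rpow_neg_one]
      ring
    rw [h12]
    have h13 := rpow_neg_nonneg p σ
    have h14 : -(κ / p) ≤ (f p).re := by linarith
    calc -κ * (1 / p * (p : ℝ) ^ (-σ)) = -(κ / p) * (p : ℝ) ^ (-σ) := by ring
      _ ≤ (f p).re * (p : ℝ) ^ (-σ) := mul_le_mul_of_nonneg_right h14 h13
  have h9 : ∑ p ∈ (primesBelow n).filter (P0 + N0 + N1 + 2 ≤ ·), (p : ℝ) ^ (-1 - σ) ≤
      Real.log (2 / σ) :=
    (Finset.sum_le_sum_of_subset_of_nonneg (Finset.filter_subset _ _)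
      (fun p _ _ => by positivity)).trans (hσp n)
  have h10 : Real.log (2 / σ) = Real.log 2 - Real.log σ := Real.log_div (by norm_num) hσ0.ne'
  have h11 : -κ * (Real.log 2 - Real.log σ) ≤ Real.log σ + D := by
    rw [← h10]
    have h12 : -κ * Real.log (2 / σ) ≤
        -κ * ∑ p ∈ (primesBelow n).filter (P0 + N0 + N1 + 2 ≤ ·), (p : ℝ) ^ (-1 - σ) := by
      have := mul_le_mul_of_nonneg_left h9 hκ0
      linarith
    linarith
  have h12 : 0 < 1 - κ := by linarith
  have h13 : (1 - κ) * Real.log σ < -(D + κ * Real.log 2 + 1) := by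
    have := mul_lt_mul_of_pos_left hσlog h12
    have h14 : (1 - κ) * -((D + κ * Real.log 2 + 1) / (1 - κ)) = -(D + κ * Real.log 2 + 1) := by
      field_simp
    linarith
  nlinarith

lemma f_prod (hf : IsMO f) (t : Finset ℕ) (ht : ∀ p ∈ t, p.Prime) :
    f (∏ p ∈ t, p) = ∏ p ∈ t, f p := by
  induction t using Finset.induction_on with
  | empty => simp [hf.one]
  | insert a t ha ih =>
    rw [Finset.prod_insert ha, Finset.prod_insert ha]
    have hpa := ht a (Finset.mem_insert_self a t)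
    have ht' : ∀ p ∈ t, p.Prime := fun p hp => ht p (Finset.mem_insert_of_mem hp)
    rw [hf.mul _ _ hpa.pos (Finset.prod_pos fun p hp => (ht' p hp).pos)
      (Nat.Coprime.prod_right fun p hp => (Nat.coprime_primes hpa (ht' p hp)).2
        (fun h => ha (h ▸ hp))), ih ht']

/-- The excess of `p |f(p)|` over one. -/
noncomputable def excess (f : ℕ → ℂ) (p : ℕ) : ℝ := max (p * ‖f p‖ - 1) 0

lemma excess_nonneg (f : ℕ → ℂ) (p : ℕ) : 0 ≤ excess f p := le_max_right _ _

lemma sum_excess_le (hf : IsMO f) {B : ℝ} (hB1 : 1 ≤ B) (hB : ∀ n : ℕ, 1 ≤ n → ‖f n‖ ≤ B / n)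
    (t : Finset ℕ) (ht : ∀ p ∈ t, p.Prime) : ∑ p ∈ t, excess f p ≤ B * Real.log B := by
  have key : ∀ p : ℕ, p.Prime → (p : ℝ) * ‖f p‖ ≤ B := by
    intro p hp
    have hp0 : (0 : ℝ) < p := by exact_mod_cast hp.pos
    have := hB p hp.pos
    rw [le_div_iff₀ hp0] at this
    linarith
  set t' := t.filter (fun p : ℕ => 1 ≤ (p : ℝ) * ‖f p‖) with ht'
  have h1 : ∑ p ∈ t, excess f p = ∑ p ∈ t', excess f p := by
    symm
    apply Finset.sum_subset (Finset.filter_subset _ _)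
    intro p hp hp'
    rw [Finset.mem_filter, not_and, not_le] at hp'
    unfold excess
    exact max_eq_right (by linarith [hp' hp])
  have h2 : ∀ p ∈ t', excess f p ≤ B * Real.log ((p : ℝ) * ‖f p‖) := by
    intro p hp
    rw [ht', Finset.mem_filter] at hp
    set x := (p : ℝ) * ‖f p‖ with hx
    have hx0 : 0 < x := by linarith [hp.2]
    have h3 := Real.one_sub_inv_le_log_of_pos hx0
    have h4 : x ≤ B := key p (ht p hp.1)
    have h5 : excess f p = x - 1 := max_eq_left (by linarith [hp.2])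
    rw [h5]
    have h6 : x - 1 ≤ B * (1 - x⁻¹) := by
      have h7 : 0 ≤ 1 - x⁻¹ := by
        have := inv_le_one_of_one_le₀ hp.2
        linarith
      calc x - 1 = x * (1 - x⁻¹) := by field_simp
        _ ≤ B * (1 - x⁻¹) := mul_le_mul_of_nonneg_right h4 h7
    exact h6.trans (mul_le_mul_of_nonneg_left h3 (by linarith))
  rw [h1]
  refine (Finset.sum_le_sum h2).trans ?_
  rw [← Finset.mul_sum]
  refine mul_le_mul_of_nonneg_left ?_ (by linarith)
  have hpos : ∀ p ∈ t', (p : ℝ) * ‖f p‖ ≠ 0 := by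
    intro p hp
    rw [ht', Finset.mem_filter] at hp
    exact (by linarith [hp.2] : (0 : ℝ) < (p : ℝ) * ‖f p‖).ne'
  rw [← Real.log_prod hpos]
  have htp : ∀ p ∈ t', p.Prime := fun p hp => ht p (Finset.mem_filter.1 hp).1
  have h3 : ∏ p ∈ t', (p : ℝ) * ‖f p‖ = ((∏ p ∈ t', p : ℕ) : ℝ) * ‖f (∏ p ∈ t', p)‖ := by
    rw [Finset.prod_mul_distrib, f_prod hf t' htp, norm_prod]
    push_cast
    rfl
  have hposn : 0 < ∏ p ∈ t', p := Finset.prod_pos fun p hp => (htp p hp).pos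
  have h4 : ∏ p ∈ t', (p : ℝ) * ‖f p‖ ≤ B := by
    rw [h3]
    have h5 := hB (∏ p ∈ t', p) hposn
    have h6 : (0 : ℝ) < ((∏ p ∈ t', p : ℕ) : ℝ) := by exact_mod_cast hposn
    rw [le_div_iff₀ h6] at h5
    linarith
  have h5 : 0 < ∏ p ∈ t', (p : ℝ) * ‖f p‖ := by
    refine Finset.prod_pos fun p hp => ?_
    rw [ht', Finset.mem_filter] at hp
    linarith [hp.2]
  exact Real.log_le_log h5 h4

/-- The function whose sum over the primes measures the distance from `μ(n) / n`. -/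
noncomputable def dist (f : ℕ → ℂ) (p : ℕ) : ℝ := |1 + p * (f p).re| / p

/-- **If the partial sums are `O(1 / x)`, then `f` resembles `μ(n) / n`.** -/
theorem exists_bound (hf : IsMO f) (hK : ∀ N : ℕ, 1 ≤ N → ‖s f N‖ ≤ K / N) :
    ∃ P : ℕ, ∃ D : ℝ, ∀ t : Finset ℕ, (∀ p ∈ t, p.Prime ∧ P ≤ p) → ∑ p ∈ t, dist f p ≤ D := by
  have hK1 := one_le_K hf hK
  have hB := norm_f_le hK
  set B := 3 * K with hBdef
  obtain ⟨P, hP⟩ := exists_nat_ge (4 * (3 * K))
  obtain ⟨D, hD⟩ := main_ineq hf hK P hP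
  refine ⟨P, Real.log 2 + D + 2 * (B * Real.log B), fun t ht => ?_⟩
  have hlim : Tendsto (fun σ : ℝ => ∑ p ∈ t, |1 + p * (f p).re| * (p : ℝ) ^ (-1 - σ)) (𝓝[>] 0)
      (𝓝 (∑ p ∈ t, dist f p)) := by
    refine tendsto_finsetSum _ fun p hp => ?_
    have hp0 : (0 : ℝ) < p := by exact_mod_cast (ht p hp).1.pos
    have h2 : Continuous fun σ : ℝ => |1 + p * (f p).re| * (p : ℝ) ^ (-1 - σ) :=
      continuous_const.mul (continuous_const.rpow (continuous_const.sub continuous_id)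
        (fun _ => Or.inl hp0.ne'))
    have h3 := (h2.tendsto 0).mono_left (nhdsWithin_le_nhds (s := Set.Ioi 0))
    have h4 : |1 + p * (f p).re| * (p : ℝ) ^ (-1 - (0 : ℝ)) = dist f p := by
      unfold dist
      rw [sub_zero, Real.rpow_neg_one]
      rfl
    rw [h4] at h3
    exact h3
  refine le_of_tendsto hlim ?_
  filter_upwards [hD, prime_sum_le, self_mem_nhdsWithin] with σ hσD hσp hσ
  have hσ0 : 0 < σ := hσ
  obtain ⟨n, hn, hnt⟩ := (hσD.and (eventually_ge_atTop (t.sup id + 1))).exists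
  have hsub : t ⊆ (primesBelow n).filter (P ≤ ·) := by
    intro p hp
    rw [Finset.mem_filter, mem_primesBelow]
    have h5 : p ≤ t.sup id := Finset.le_sup (f := id) hp
    exact ⟨⟨by omega, (ht p hp).1⟩, (ht p hp).2⟩
  set T := (primesBelow n).filter (P ≤ ·) with hT
  have hTp : ∀ p ∈ T, p.Prime := fun p hp => prime_of_mem_primesBelow (Finset.mem_filter.1 hp).1
  have habs : ∀ p : ℕ, |1 + p * (f p).re| ≤ (1 + p * (f p).re) + 2 * excess f p := by
    intro p
    have h5 : -(p * ‖f p‖) ≤ p * (f p).re := by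
      have h10 := Complex.abs_re_le_norm (f p)
      have h11 := neg_abs_le (f p).re
      have h12 : (0 : ℝ) ≤ p := Nat.cast_nonneg p
      nlinarith
    have h6 : p * ‖f p‖ - 1 ≤ excess f p := le_max_left _ _
    have h7 := excess_nonneg f p
    rw [abs_le]
    constructor <;> linarith
  have hrp : ∀ p : ℕ, 0 ≤ (p : ℝ) ^ (-1 - σ) := fun p => by positivity
  have hrp1 : ∀ p ∈ T, (p : ℝ) ^ (-1 - σ) ≤ 1 := fun p hp =>
    Real.rpow_le_one_of_one_le_of_nonpos (by exact_mod_cast (hTp p hp).one_le) (by linarith)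
  calc ∑ p ∈ t, |1 + p * (f p).re| * (p : ℝ) ^ (-1 - σ)
      ≤ ∑ p ∈ t, ((1 + p * (f p).re) + 2 * excess f p) * (p : ℝ) ^ (-1 - σ) :=
        Finset.sum_le_sum fun p _ => mul_le_mul_of_nonneg_right (habs p) (hrp p)
    _ ≤ ∑ p ∈ T, ((1 + p * (f p).re) + 2 * excess f p) * (p : ℝ) ^ (-1 - σ) :=
        Finset.sum_le_sum_of_subset_of_nonneg hsub fun p _ _ =>
          mul_nonneg ((abs_nonneg _).trans (habs p)) (hrp p)
    _ = ∑ p ∈ T, (p : ℝ) ^ (-1 - σ) + ∑ p ∈ T, (f p).re * (p : ℝ) ^ (-σ) +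
          2 * ∑ p ∈ T, excess f p * (p : ℝ) ^ (-1 - σ) := by
        rw [Finset.mul_sum, ← Finset.sum_add_distrib, ← Finset.sum_add_distrib]
        refine Finset.sum_congr rfl fun p hp => ?_
        have hp0 : (0 : ℝ) < p := by exact_mod_cast (hTp p hp).pos
        have h5 : (p : ℝ) ^ (-σ) = p * (p : ℝ) ^ (-1 - σ) := by
          have : (-1 - σ : ℝ) = -1 + -σ := by ring
          rw [this, Real.rpow_add hp0, Real.rpow_neg_one]
          field_simp
        rw [h5]
        ring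
    _ ≤ Real.log (2 / σ) + (Real.log σ + D) + 2 * (B * Real.log B) := by
        refine add_le_add (add_le_add ?_ hn) ?_
        · exact (Finset.sum_le_sum_of_subset_of_nonneg (Finset.filter_subset _ _)
            (fun p _ _ => hrp p)).trans (hσp n)
        · refine mul_le_mul_of_nonneg_left ?_ (by norm_num)
          refine le_trans (Finset.sum_le_sum fun p hp => ?_)
            (sum_excess_le hf (by linarith) hB T hTp)
          exact mul_le_of_le_one_right (excess_nonneg f p) (hrp1 p hp)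
    _ = Real.log 2 + D + 2 * (B * Real.log B) := by
        rw [Real.log_div (by norm_num) hσ0.ne']
        ring

theorem summable_dist (hf : IsMO f) (hK : ∀ x : ℝ, 1 ≤ x → ‖S f x‖ ≤ K / x) :
    Summable fun p : Nat.Primes => |1 + ((p : ℕ) : ℝ) * (f p).re| / ((p : ℕ) : ℝ) := by
  have hK' : ∀ N : ℕ, 1 ≤ N → ‖s f N‖ ≤ K / N := by
    intro N hN
    rw [← S_natCast]
    exact hK N (by exact_mod_cast hN)
  obtain ⟨P, D, hPD⟩ := exists_bound hf hK'
  have hnn : ∀ p : ℕ, 0 ≤ dist f p := fun p => by unfold dist; positivity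
  refine summable_of_sum_le (c := ∑ p ∈ primesBelow P, dist f p + D) (fun p => hnn p) ?_
  intro t
  have e1 : ∑ p ∈ t, |1 + ((p : ℕ) : ℝ) * (f p).re| / ((p : ℕ) : ℝ) =
      ∑ p ∈ t.map ⟨fun q : Nat.Primes => (q : ℕ), Nat.Primes.coe_nat_injective⟩, dist f p := by
    rw [Finset.sum_map]
    rfl
  rw [e1]
  set t' := t.map ⟨fun q : Nat.Primes => (q : ℕ), Nat.Primes.coe_nat_injective⟩ with ht'
  have htp : ∀ p ∈ t', p.Prime := by
    intro p hp
    rw [ht', Finset.mem_map] at hp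
    obtain ⟨q, -, rfl⟩ := hp
    exact q.2
  rw [← Finset.sum_filter_add_sum_filter_not t' (fun p => p < P)]
  refine add_le_add ?_ ?_
  · refine Finset.sum_le_sum_of_subset_of_nonneg ?_ (fun p _ _ => hnn p)
    intro p hp
    rw [Finset.mem_filter] at hp
    rw [mem_primesBelow]
    exact ⟨hp.2, htp p hp.1⟩
  · apply hPD
    intro p hp
    rw [Finset.mem_filter, not_lt] at hp
    exact ⟨htp p hp.1, hp.2⟩

end Pool.Agent.TH127.MO
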